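import Mathlib
import Pool.Graph.R_seed8.Helper934.PlankDefs
import Pool.Graph.R_seed8.Helper934.PlankMain
import Pool.Graph.R_seed8.Helper934.PlankUpper

/-!
Multiple plank coverings: linear programming duality. The asymptotic covering constant of a
compact set is described by the probability measures on it whose mass on every plank is at most
a constant times the width of the plank.
-/

open MeasureTheory Metric Set Filter Topology
open Pool.Agent.Helper934.PlankDefs

namespace Pool.Agent.H907.PL

/-- `n`-dimensional Euclidean space. -/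
abbrev E (n : ℕ) := EuclideanSpace ℝ (Fin n)

/-- The probability measure `μ` is carried by `K` and gives every plank a mass which is at most
`C` times its width. -/
def IsSpread {d : ℕ} (K : Set (EuclideanSpace ℝ (Fin d))) (C : ℝ)
    (μ : Measure (EuclideanSpace ℝ (Fin d))) : Prop :=
  IsProbabilityMeasure μ ∧ μ Kᶜ = 0 ∧
    ∀ (θ : EuclideanSpace ℝ (Fin d)) (a b : ℝ), ‖θ‖ = 1 → a ≤ b →
      μ (plank θ a b) ≤ ENNReal.ofReal (C * (b - a))

lemma measurableSet_plank {d : ℕ} (θ : E d) (a b : ℝ) : MeasurableSet (plank θ a b) := by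
  have h1 : Measurable (fun x : E d => inner ℝ x θ) := by fun_prop
  have : plank θ a b = (fun x : E d => inner ℝ x θ) ⁻¹' (Icc a b) := rfl
  rw [this]
  exact h1 measurableSet_Icc

/-- The easy half of the duality. -/
theorem le_total_of_spread {d : ℕ} {K : Set (E d)} {C : ℝ} {μ : Measure (E d)}
    (hμ : IsSpread K C μ) (hC : 0 ≤ C) {k m : ℕ} {θ : Fin m → E d} {a b : Fin m → ℝ}
    (hc : IsFoldCover K k θ a b) : (k : ℝ) ≤ C * ∑ i, (b i - a i) := by
  classical
  obtain ⟨hp, hK, hs⟩ := hμ
  obtain ⟨hθ, hab, hcov⟩ := hc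
  have h1 : (k : ENNReal) ≤ ∑ i, μ (plank (θ i) (a i) (b i)) := by
    calc (k : ENNReal) = ∫⁻ _ : E d, (k : ENNReal) ∂μ := by
          rw [lintegral_const, measure_univ, mul_one]
      _ ≤ ∫⁻ x : E d, ∑ i, (plank (θ i) (a i) (b i)).indicator (fun _ => (1 : ENNReal)) x ∂μ := by
          refine lintegral_mono_ae ?_
          have hae : ∀ᵐ x ∂μ, x ∈ K := hK
          filter_upwards [hae] with x hx
          have h2 := hcov x hx
          have h3 : ∑ i, (plank (θ i) (a i) (b i)).indicator (fun _ => (1 : ENNReal)) x =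
              ((Nat.card {i : Fin m // x ∈ plank (θ i) (a i) (b i)} : ℕ) : ENNReal) := by
            rw [Nat.card_eq_fintype_card, Fintype.card_subtype, Finset.card_filter]
            push_cast
            refine Finset.sum_congr rfl fun i _ => ?_
            by_cases hx' : x ∈ plank (θ i) (a i) (b i)
            · simp [hx']
            · simp [hx']
          rw [h3]
          exact_mod_cast h2
      _ = ∑ i, μ (plank (θ i) (a i) (b i)) := by
          rw [lintegral_finsetSum]
          · refine Finset.sum_congr rfl fun i _ => ?_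
            rw [lintegral_indicator_const (measurableSet_plank _ _ _), one_mul]
          · intro i _
            exact measurable_const.indicator (measurableSet_plank _ _ _)
  have h2 : ∑ i, μ (plank (θ i) (a i) (b i)) ≤ ENNReal.ofReal (C * ∑ i, (b i - a i)) := by
    rw [Finset.mul_sum, ENNReal.ofReal_sum_of_nonneg
      (fun i _ => mul_nonneg hC (sub_nonneg.2 (hab i)))]
    exact Finset.sum_le_sum fun i _ => hs _ _ _ (hθ i) (hab i)
  have h3 := h1.trans h2
  rw [← ENNReal.ofReal_natCast] at h3
  exact (ENNReal.ofReal_le_ofReal_iff (mul_nonneg hC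
    (Finset.sum_nonneg fun i _ => sub_nonneg.2 (hab i)))).1 h3

/-- The finite form of the hard half of the duality: finitely many planks. -/
theorem finite_dual {d N : ℕ} {K : Set (E d)} {τ : ℝ} (hτ : 0 < τ)
    (hcov : ∀ (k m : ℕ) (θ : Fin m → E d) (a b : Fin m → ℝ), IsFoldCover K k θ a b →
      τ * k ≤ ∑ i, (b i - a i))
    (θ : Fin N → E d) (a b : Fin N → ℝ) (hθ : ∀ j, ‖θ j‖ = 1) (hab : ∀ j, a j ≤ b j) :
    ∃ μ : Measure K, IsProbabilityMeasure μ ∧
      ∀ j, μ (Subtype.val ⁻¹' plank (θ j) (a j) (b j)) ≤ ENNReal.ofReal ((b j - a j) / τ) := by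
  classical
  let P : Fin N → Set (E d) := fun j => plank (θ j) (a j) (b j)
  let F : K → (Fin N → ℝ) := fun x j => (if (x : E d) ∈ P j then 1 else 0) - (b j - a j) / τ
  have hfin : (range F).Finite := by
    let G : (Fin N → Bool) → (Fin N → ℝ) := fun s j => (if s j then 1 else 0) - (b j - a j) / τ
    refine (Set.finite_range G).subset ?_
    rintro _ ⟨x, rfl⟩
    refine ⟨fun j => decide ((x : E d) ∈ P j), ?_⟩
    funext j
    simp [G, F]
  let T : Set (Fin N → ℝ) := {y | ∀ j, y j ≤ 0}
  have hTc : IsClosed T := by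
    have : T = ⋂ j, {y : Fin N → ℝ | y j ≤ 0} := by ext y; simp [T]
    rw [this]
    exact isClosed_iInter fun j => isClosed_le (continuous_apply j) continuous_const
  have hTconv : Convex ℝ T := by
    intro x hx y hy s t hs ht _ j
    have h1 := hx j
    have h2 := hy j
    have : (s • x + t • y) j = s * x j + t * y j := by simp
    rw [this]
    nlinarith
  have hmeet : ((convexHull ℝ (range F)) ∩ T).Nonempty := by
    by_contra hcon
    have hdisj : Disjoint (convexHull ℝ (range F)) T := by
      rw [Set.disjoint_iff_inter_eq_empty]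
      exact Set.not_nonempty_iff_eq_empty.1 hcon
    obtain ⟨f, u, v, hfu, huv, hvf⟩ := geometric_hahn_banach_compact_closed
      (convex_convexHull ℝ (range F)) (Set.Finite.isCompact_convexHull ℝ hfin) hTconv hTc hdisj
    let c : Fin N → ℝ := fun j => - f (Pi.single j 1)
    have hfc : ∀ y : Fin N → ℝ, f y = - ∑ j, c j * y j := by
      intro y
      have h1 := LinearMap.pi_apply_eq_sum_univ (f : (Fin N → ℝ) →ₗ[ℝ] ℝ) y
      have h2 : f y = ∑ j, y j * f (Pi.single j 1) := by
        refine Eq.trans h1 ?_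
        refine Finset.sum_congr rfl fun j _ => ?_
        have h3 : (fun k => if j = k then (1 : ℝ) else 0) = Pi.single j (1 : ℝ) := by
          funext k
          by_cases hk : j = k
          · subst hk; simp
          · rw [if_neg hk, Pi.single_eq_of_ne (Ne.symm hk)]
        rw [h3]
        rfl
      rw [h2, ← Finset.sum_neg_distrib]
      refine Finset.sum_congr rfl fun j _ => ?_
      simp only [c]
      ring
    have hv0 : v < 0 := by
      have := hvf 0 (fun j => le_rfl)
      simpa using this
    have hc0 : ∀ j, 0 ≤ c j := by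
      intro j
      by_contra hneg
      push Not at hneg
      have hmem : ∀ t : ℝ, 0 ≤ t → (Pi.single j (-t) : Fin N → ℝ) ∈ T := by
        intro t ht i
        by_cases hi : i = j
        · subst hi; simp [ht]
        · rw [Pi.single_eq_of_ne hi]
      have h2 : ∀ t : ℝ, 0 ≤ t → v < c j * t := by
        intro t ht
        have h3 := hvf _ (hmem t ht)
        rw [hfc, Finset.sum_eq_single j] at h3
        · rw [Pi.single_eq_same] at h3
          linarith
        · intro i _ hi
          rw [Pi.single_eq_of_ne hi, mul_zero]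
        · intro h; exact absurd (Finset.mem_univ j) h
      have h4 := h2 (v / c j) (div_nonneg_of_nonpos hv0.le hneg.le)
      rw [mul_div_cancel₀ _ hneg.ne] at h4
      exact lt_irrefl _ h4
    set δ : ℝ := -v with hδ
    have hδ0 : 0 < δ := by rw [hδ]; linarith
    set S : ℝ := ∑ j, c j * (b j - a j) with hS
    set W : ℝ := ∑ j, (b j - a j) with hW
    have hW0 : 0 ≤ W := Finset.sum_nonneg fun j _ => sub_nonneg.2 (hab j)
    have hS0 : 0 ≤ S := Finset.sum_nonneg fun j _ => mul_nonneg (hc0 j) (sub_nonneg.2 (hab j))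
    have hpt : ∀ x ∈ K, δ + S / τ ≤ ∑ j, c j * (if x ∈ P j then 1 else 0) := by
      intro x hx
      have h1 := hfu (F ⟨x, hx⟩) (subset_convexHull ℝ _ ⟨_, rfl⟩)
      rw [hfc] at h1
      have h2 : ∑ j, c j * F ⟨x, hx⟩ j = ∑ j, c j * (if x ∈ P j then 1 else 0) - S / τ := by
        rw [hS, Finset.sum_div, ← Finset.sum_sub_distrib]
        refine Finset.sum_congr rfl fun j _ => ?_
        simp only [F]
        ring
      rw [h2] at h1
      have : δ = -v := hδ
      linarith
    obtain ⟨M, hM⟩ := exists_nat_gt (W / (τ * δ))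
    rw [div_lt_iff₀ (by positivity)] at hM
    set n : Fin N → ℕ := fun j => ⌈(M : ℝ) * c j⌉₊ with hn
    have hn1 : ∀ j, (M : ℝ) * c j ≤ n j := fun j => Nat.le_ceil _
    have hn2 : ∀ j, (n j : ℝ) ≤ (M : ℝ) * c j + 1 := fun j =>
      (Nat.ceil_lt_add_one (mul_nonneg (Nat.cast_nonneg M) (hc0 j))).le
    obtain ⟨m, θ', a', b', hc', hs'⟩ := Pool.Agent.Helper934.PlankUpper.exists_fin
      (ι := Σ j, Fin (n j)) K ⌈(M : ℝ) * (δ + S / τ)⌉₊ (fun p => θ p.1) (fun p => a p.1)
      (fun p => b p.1) (fun p => hθ p.1) (fun p => hab p.1)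
      (by
        intro x hx
        have hcard : Nat.card {p : (Σ j, Fin (n j)) // x ∈ plank (θ p.1) (a p.1) (b p.1)} =
            ∑ j, Nat.card {s : Fin (n j) // x ∈ plank (θ j) (a j) (b j)} := by
          rw [← Nat.card_sigma]
          apply Nat.card_congr
          exact ⟨fun p => ⟨p.1.1, ⟨p.1.2, p.2⟩⟩, fun q => ⟨⟨q.1, q.2.1⟩, q.2.2⟩,
            by rintro ⟨⟨_, _⟩, _⟩; rfl, by rintro ⟨_, ⟨_, _⟩⟩; rfl⟩
        rw [hcard, Nat.ceil_le]
        push_cast
        refine (mul_le_mul_of_nonneg_left (hpt x hx) (Nat.cast_nonneg M)).trans ?_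
        rw [Finset.mul_sum]
        refine Finset.sum_le_sum fun j _ => ?_
        by_cases h : x ∈ P j
        · rw [if_pos h, mul_one]
          have hall : ∀ s : Fin (n j), x ∈ plank (θ j) (a j) (b j) := fun _ => h
          have e : Nat.card {s : Fin (n j) // x ∈ plank (θ j) (a j) (b j)} = n j := by
            have h2 : Nat.card {s : Fin (n j) // x ∈ plank (θ j) (a j) (b j)} =
                Nat.card (Fin (n j)) :=
              Nat.card_congr (Equiv.subtypeUnivEquiv hall)
            rw [h2, Nat.card_eq_fintype_card, Fintype.card_fin]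
          rw [e]
          exact hn1 j
        · rw [if_neg h, mul_zero, mul_zero]
          exact Nat.cast_nonneg _)
    have h1 := hcov _ _ _ _ _ hc'
    rw [hs'] at h1
    have h2 : ∑ p : (Σ j, Fin (n j)), (b p.1 - a p.1) = ∑ j, (n j : ℝ) * (b j - a j) := by
      rw [Fintype.sum_sigma]
      refine Finset.sum_congr rfl fun j _ => ?_
      simp only [Finset.sum_const, Finset.card_univ, Fintype.card_fin, nsmul_eq_mul]
    rw [h2] at h1
    have h3 : ∑ j, (n j : ℝ) * (b j - a j) ≤ M * S + W := by
      rw [hS, hW, Finset.mul_sum, ← Finset.sum_add_distrib]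
      refine Finset.sum_le_sum fun j _ => ?_
      have := mul_le_mul_of_nonneg_right (hn2 j) (sub_nonneg.2 (hab j))
      linarith
    have h4 : (M : ℝ) * (δ + S / τ) ≤ (⌈(M : ℝ) * (δ + S / τ)⌉₊ : ℝ) := Nat.le_ceil _
    have h5 := mul_le_mul_of_nonneg_left h4 hτ.le
    have h6 : τ * ((M : ℝ) * (δ + S / τ)) = M * (τ * δ) + M * S := by
      field_simp
    linarith
  obtain ⟨y, hy1, hy2⟩ := hmeet
  rw [mem_convexHull_iff_exists_fintype] at hy1
  obtain ⟨ι, _, w, z, hw0, hw1, hz, hsum⟩ := hy1
  choose p hp using hz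
  refine ⟨∑ i, ENNReal.ofReal (w i) • Measure.dirac (p i), ⟨?_⟩, ?_⟩
  · rw [Measure.finsetSum_apply]
    simp only [Measure.smul_apply, measure_univ, smul_eq_mul, mul_one]
    rw [← ENNReal.ofReal_sum_of_nonneg (fun i _ => hw0 i), hw1, ENNReal.ofReal_one]
  · intro j
    rw [Measure.finsetSum_apply]
    have hm : MeasurableSet (Subtype.val ⁻¹' plank (θ j) (a j) (b j) : Set K) :=
      measurable_subtype_coe (measurableSet_plank _ _ _)
    have h1 : ∀ i, (ENNReal.ofReal (w i) • Measure.dirac (p i) : Measure K)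
        (Subtype.val ⁻¹' plank (θ j) (a j) (b j)) =
        ENNReal.ofReal (w i * (if (p i : E d) ∈ P j then 1 else 0)) := by
      intro i
      rw [Measure.smul_apply, Measure.dirac_apply' _ hm, smul_eq_mul]
      by_cases hi : (p i : E d) ∈ P j
      · have : p i ∈ (Subtype.val ⁻¹' plank (θ j) (a j) (b j) : Set K) := hi
        simp [this, hi]
      · have : p i ∉ (Subtype.val ⁻¹' plank (θ j) (a j) (b j) : Set K) := hi
        simp [this, hi]
    rw [Finset.sum_congr rfl fun i _ => h1 i, ← ENNReal.ofReal_sum_of_nonneg]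
    · apply ENNReal.ofReal_le_ofReal
      have h2 := hy2 j
      rw [← hsum] at h2
      have h3 : (∑ i, w i • z i) j = ∑ i, w i * (if (p i : E d) ∈ P j then 1 else 0) -
          (b j - a j) / τ := by
        rw [Finset.sum_apply]
        have h4 : ∀ i, (w i • z i) j = w i * (if (p i : E d) ∈ P j then 1 else 0) -
            w i * ((b j - a j) / τ) := by
          intro i
          rw [← hp i]
          simp only [F, Pi.smul_apply, smul_eq_mul]
          ring
        rw [Finset.sum_congr rfl fun i _ => h4 i, Finset.sum_sub_distrib, ← Finset.sum_mul, hw1,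
          one_mul]
      rw [h3] at h2
      linarith
    · intro i _
      refine mul_nonneg (hw0 i) ?_
      split_ifs <;> norm_num

/-- The hard half of the duality. -/
theorem exists_spread {d : ℕ} {K : Set (E d)} (hK : IsCompact K) {τ : ℝ} (hτ : 0 < τ)
    (hcov : ∀ (k m : ℕ) (θ : Fin m → E d) (a b : Fin m → ℝ), IsFoldCover K k θ a b →
      τ * k ≤ ∑ i, (b i - a i)) :
    ∃ μ : Measure (E d), IsSpread K (1 / τ) μ := by
  classical
  haveI : CompactSpace K := isCompact_iff_compactSpace.mp hK
  let Plk := {p : E d × ℝ × ℝ // ‖p.1‖ = 1 ∧ p.2.1 ≤ p.2.2}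
  have hex : ∀ J : Finset Plk, ∃ μ : ProbabilityMeasure K, ∀ p ∈ J,
      (μ : Measure K) (Subtype.val ⁻¹' plank p.1.1 p.1.2.1 p.1.2.2) ≤
        ENNReal.ofReal ((p.1.2.2 - p.1.2.1) / τ) := by
    intro J
    let e := J.equivFin
    obtain ⟨μ, hμ, h⟩ := finite_dual hτ hcov (fun j : Fin J.card => (e.symm j).1.1.1)
      (fun j => (e.symm j).1.1.2.1) (fun j => (e.symm j).1.1.2.2)
      (fun j => (e.symm j).1.2.1) (fun j => (e.symm j).1.2.2)
    refine ⟨⟨μ, hμ⟩, fun p hp => ?_⟩
    have h1 := h (e ⟨p, hp⟩)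
    simpa using h1
  choose μ hμ using hex
  let U : Ultrafilter (Finset Plk) := Ultrafilter.of atTop
  have hU : (U : Filter (Finset Plk)) ≤ atTop := Ultrafilter.of_le atTop
  obtain ⟨ν, -, hν⟩ := (isCompact_univ (X := ProbabilityMeasure K)).ultrafilter_le_nhds
    (U.map μ) (by simp)
  have hνt : Tendsto μ (U : Filter (Finset Plk)) (𝓝 ν) := hν
  have hopen : ∀ (θ : E d) (a b : ℝ), ‖θ‖ = 1 → a ≤ b →
      (ν : Measure K) (Subtype.val ⁻¹' {x : E d | a < inner ℝ x θ ∧ inner ℝ x θ < b}) ≤
        ENNReal.ofReal ((b - a) / τ) := by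
    intro θ a b hθ hab
    have hG : IsOpen (Subtype.val ⁻¹' {x : E d | a < inner ℝ x θ ∧ inner ℝ x θ < b} : Set K) := by
      apply IsOpen.preimage continuous_subtype_val
      have h1 : Continuous fun x : E d => inner ℝ x θ := by fun_prop
      exact (isOpen_lt continuous_const h1).inter (isOpen_lt h1 continuous_const)
    refine (ProbabilityMeasure.le_liminf_measure_open_of_tendsto hνt hG).trans ?_
    refine Filter.liminf_le_of_frequently_le' ?_
    apply Filter.Eventually.frequently
    have h2 : ∀ᶠ J : Finset Plk in atTop, (⟨(θ, a, b), hθ, hab⟩ : Plk) ∈ J := by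
      filter_upwards [eventually_ge_atTop ({⟨(θ, a, b), hθ, hab⟩} : Finset Plk)] with J hJ
      exact hJ (Finset.mem_singleton_self _)
    filter_upwards [hU h2] with J hJ
    refine le_trans (measure_mono ?_) (hμ J _ hJ)
    intro x hx
    exact ⟨hx.1.le, hx.2.le⟩
  refine ⟨(ν : Measure K).map Subtype.val, ?_, ?_, ?_⟩
  · exact Measure.isProbabilityMeasure_map measurable_subtype_coe.aemeasurable
  · rw [Measure.map_apply measurable_subtype_coe hK.measurableSet.compl]
    have : (Subtype.val ⁻¹' Kᶜ : Set K) = ∅ := by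
      ext x
      simp
    rw [this, measure_empty]
  · intro θ a b hθ hab
    rw [Measure.map_apply measurable_subtype_coe (measurableSet_plank _ _ _)]
    have h1 : ∀ ε : ℝ, 0 < ε → (ν : Measure K) (Subtype.val ⁻¹' plank θ a b) ≤
        ENNReal.ofReal ((b - a + 2 * ε) / τ) := by
      intro ε hε
      refine le_trans (measure_mono ?_) ((hopen θ (a - ε) (b + ε) hθ (by linarith)).trans
        (le_of_eq ?_))
      · intro x hx
        have hx' : a ≤ inner ℝ (x : E d) θ ∧ inner ℝ (x : E d) θ ≤ b := hx
        refine ⟨?_, ?_⟩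
        · show a - ε < inner ℝ (x : E d) θ
          linarith [hx'.1]
        · show inner ℝ (x : E d) θ < b + ε
          linarith [hx'.2]
      · congr 1
        ring
    have h2 : Tendsto (fun ε : ℝ => ENNReal.ofReal ((b - a + 2 * ε) / τ)) (𝓝[>] 0)
        (𝓝 (ENNReal.ofReal (1 / τ * (b - a)))) := by
      have h3 : Tendsto (fun ε : ℝ => (b - a + 2 * ε) / τ) (𝓝 0) (𝓝 ((b - a + 2 * 0) / τ)) := by
        apply Continuous.tendsto
        fun_prop
      have h4 : (b - a + 2 * 0) / τ = 1 / τ * (b - a) := by ring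
      rw [h4] at h3
      exact (ENNReal.continuous_ofReal.tendsto _).comp (h3.mono_left nhdsWithin_le_nhds)
    refine ge_of_tendsto h2 ?_
    filter_upwards [self_mem_nhdsWithin] with ε hε
    exact h1 ε hε

end Pool.Agent.H907.PL
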